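import Pool.Agent.W646.CI.Stm

/-!
# Project CI (helper646): the exponent inequality `S_XI`
-/

set_option autoImplicit false

namespace Pool.Agent.W101.CI

open Pool.Agent.W646.CI

/-- Strong convexity of powers. -/
theorem pow_convex (n : ℕ) {x y : ℝ} (hx : 1 ≤ x) (hy : 1 ≤ y) :
    y ^ (n + 2) + ((n : ℝ) + 2) * y ^ (n + 1) * (x - y) + (x - y) ^ 2 ≤ x ^ (n + 2) := by
  induction n with
  | zero => exact le_of_eq (by push_cast; ring)
  | succ n ih =>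
    have h1 : x * (y ^ (n + 2) + ((n : ℝ) + 2) * y ^ (n + 1) * (x - y) + (x - y) ^ 2) ≤
        x * x ^ (n + 2) := mul_le_mul_of_nonneg_left ih (by linarith)
    have h2 : x * x ^ (n + 2) = x ^ (n + 1 + 2) := by ring
    have h3 : y ^ (n + 1 + 2) + (((n + 1 : ℕ) : ℝ) + 2) * y ^ (n + 1 + 1) * (x - y) + (x - y) ^ 2 =
        x * (y ^ (n + 2) + ((n : ℝ) + 2) * y ^ (n + 1) * (x - y) + (x - y) ^ 2)
        - (x - 1) * (x - y) ^ 2 - ((n : ℝ) + 2) * y ^ (n + 1) * (x - y) ^ 2 := by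
      push_cast; ring
    have h4 : 0 ≤ (x - 1) * (x - y) ^ 2 := mul_nonneg (by linarith) (sq_nonneg _)
    have h5 : 0 ≤ ((n : ℝ) + 2) * y ^ (n + 1) * (x - y) ^ 2 := by positivity
    rw [h3]
    linarith

theorem exp_bound {y w δ a b q : ℝ} (hδ0 : 0 ≤ δ) (hδ1 : δ ≤ 1) (hy : y = w - δ)
    (hq0 : 0 ≤ q) (hq2 : q ≤ 2) (h : a + y ^ 2 ≤ b) :
    a + q * y ≤ b - w ^ 2 / 4 + 5 / 2 := by
  subst hy
  rcases le_total 0 (w - δ) with h0 | h0
  · have : q * (w - δ) ≤ 2 * (w - δ) := mul_le_mul_of_nonneg_right hq2 h0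
    nlinarith [sq_nonneg (w - δ - 2), sq_nonneg (w - δ - δ)]
  · have : q * (w - δ) ≤ 0 := mul_nonpos_of_nonneg_of_nonpos hq0 h0
    nlinarith [sq_nonneg (w - δ - δ), sq_nonneg (w - δ)]

theorem main : S_XI := by
  intro K hK
  obtain ⟨n, rfl⟩ : ∃ n, K = n + 3 := ⟨K - 3, by omega⟩
  refine ⟨2 * ((n : ℝ) + 3) ^ 2 * (((n : ℝ) + 3) + 3) * Real.exp (5 / 2), by positivity, ?_⟩
  intro m i hm hi t ht0 ht1 τ hτ
  have hm' : (1 : ℝ) ≤ m := by exact_mod_cast hm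
  have hLdef : (LL (n + 3) m : ℝ) = ((m : ℝ) + 2) ^ (20 * (n + 3)) := by
    unfold LL; push_cast; rfl
  have hp : pp (n + 3) m i =
      ⌊((n : ℝ) + 3) * ((m : ℝ) + i / LL (n + 3) m) ^ (n + 2)⌋₊ + 1 := by
    unfold pp
    push_cast
    rfl
  have hi' : (i : ℝ) + 1 ≤ LL (n + 3) m := by
    have h := Nat.succ_le_of_lt hi
    generalize LL (n + 3) m = L at h
    exact_mod_cast h
  generalize pp (n + 3) m i = pq at hp ⊢
  clear hi
  generalize (LL (n + 3) m : ℝ) = L at hLdef hp hi' ht0 ht1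
  have hL0 : (0 : ℝ) < L := by rw [hLdef]; positivity
  have hL1 : ((i : ℝ) + 1) / L ≤ 1 := by
    rw [div_le_one hL0]
    exact hi'
  have hi0 : 0 ≤ (i : ℝ) / L := div_nonneg (Nat.cast_nonneg _) hL0.le
  have htt : t - ((m : ℝ) + i / L) ≤ 1 / L := by
    have : (m : ℝ) + (i + 1) / L = (m : ℝ) + i / L + 1 / L := by ring
    linarith
  have htm1 : t ≤ (m : ℝ) + 1 := by linarith
  have htm : (m : ℝ) ≤ (m : ℝ) + i / L := by linarith
  have ht0m : (m : ℝ) + i / L ≤ (m : ℝ) + 2 := by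
    have : (i : ℝ) / L ≤ (i + 1) / L := by gcongr; linarith
    linarith
  generalize (m : ℝ) + i / L = t0 at htm htt ht0 hp ht0m
  have ht0' : 1 ≤ t0 := by linarith
  have ht' : 1 ≤ t := by linarith
  have hfl := Nat.lt_floor_add_one (((n : ℝ) + 3) * t0 ^ (n + 2))
  have hfl' := Nat.floor_le (show 0 ≤ ((n : ℝ) + 3) * t0 ^ (n + 2) by positivity)
  have hpR : (pq : ℝ) = (⌊((n : ℝ) + 3) * t0 ^ (n + 2)⌋₊ : ℝ) + 1 := by
    rw [hp]; push_cast; ring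
  generalize (pq : ℝ) = P at hpR ⊢
  -- slopes
  have hpow_le : t0 ^ (n + 2) ≤ t ^ (n + 2) := pow_le_pow_left₀ (by linarith) ht0 _
  have hq2 : P + 1 - ((n : ℝ) + 3) * t ^ (n + 2) ≤ 2 := by
    have : ((n : ℝ) + 3) * t0 ^ (n + 2) ≤ ((n : ℝ) + 3) * t ^ (n + 2) :=
      mul_le_mul_of_nonneg_left hpow_le (by positivity)
    linarith
  have hslope : ((n : ℝ) + 3) * t ^ (n + 2) - ((n : ℝ) + 3) * t0 ^ (n + 2) ≤ 1 := by
    have h1 := pow_convex n ht0' ht'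
    have h2 : t ^ (n + 2) - t0 ^ (n + 2) ≤ ((n : ℝ) + 2) * t ^ (n + 1) * (t - t0) := by
      have e : ((n : ℝ) + 2) * t ^ (n + 1) * (t0 - t) = -(((n : ℝ) + 2) * t ^ (n + 1) * (t - t0)) := by
        ring
      linarith [sq_nonneg (t0 - t)]
    have h3 : ((n : ℝ) + 2) * t ^ (n + 1) * (t - t0) ≤
        ((n : ℝ) + 2) * ((m : ℝ) + 2) ^ (n + 1) * (1 / L) := by
      have : t ^ (n + 1) ≤ ((m : ℝ) + 2) ^ (n + 1) := pow_le_pow_left₀ (by linarith) (by linarith) _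
      gcongr
    have h4 : ((n : ℝ) + 3) * (((n : ℝ) + 2) * ((m : ℝ) + 2) ^ (n + 1) * (1 / L)) ≤ 1 := by
      rw [mul_one_div, mul_div_assoc', div_le_one hL0]
      have e1 : ((n : ℝ) + 3) ≤ ((m : ℝ) + 2) ^ (n + 3) := by
        have : ((n + 3 : ℕ) : ℝ) ≤ ((2 ^ (n + 3) : ℕ) : ℝ) := by
          exact_mod_cast (Nat.lt_two_pow_self).le
        push_cast at this
        exact this.trans (pow_le_pow_left₀ (by norm_num) (by linarith) _)
      have e2 : ((n : ℝ) + 2) ≤ ((m : ℝ) + 2) ^ (n + 3) := by linarith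
      rw [hLdef]
      calc ((n : ℝ) + 3) * (((n : ℝ) + 2) * ((m : ℝ) + 2) ^ (n + 1))
          ≤ ((m : ℝ) + 2) ^ (n + 3) * (((m : ℝ) + 2) ^ (n + 3) * ((m : ℝ) + 2) ^ (n + 1)) := by
            gcongr
        _ = ((m : ℝ) + 2) ^ ((n + 3) + ((n + 3) + (n + 1))) := by ring
        _ ≤ ((m : ℝ) + 2) ^ (20 * (n + 3)) := pow_le_pow_right₀ (by linarith) (by omega)
    calc ((n : ℝ) + 3) * t ^ (n + 2) - ((n : ℝ) + 3) * t0 ^ (n + 2)
        = ((n : ℝ) + 3) * (t ^ (n + 2) - t0 ^ (n + 2)) := by ring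
      _ ≤ ((n : ℝ) + 3) * (((n : ℝ) + 2) * ((m : ℝ) + 2) ^ (n + 1) * (1 / L)) :=
          mul_le_mul_of_nonneg_left (h2.trans h3) (by positivity)
      _ ≤ 1 := h4
  have hq0 : 0 ≤ P + 1 - ((n : ℝ) + 3) * t ^ (n + 2) := by linarith
  -- the exponent
  have hconv := pow_convex (n + 1) hτ ht'
  have hexp : t ^ (n + 3) + (P + 1) * (τ - t) ≤
      τ ^ (n + 3) - (τ - m) ^ 2 / 4 + 5 / 2 := by
    have := exp_bound (y := τ - t) (w := τ - m) (δ := t - m)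
      (a := t ^ (n + 3) + ((n : ℝ) + 3) * t ^ (n + 2) * (τ - t)) (b := τ ^ (n + 3))
      (q := P + 1 - ((n : ℝ) + 3) * t ^ (n + 2)) (by linarith) (by linarith) (by ring) hq0 hq2
      (by
        have e : ((n + 1 : ℕ) : ℝ) + 2 = (n : ℝ) + 3 := by push_cast; ring
        rw [e] at hconv
        exact hconv)
    calc t ^ (n + 3) + (P + 1) * (τ - t) = t ^ (n + 3) + ((n : ℝ) + 3) * t ^ (n + 2) * (τ - t) +
          (P + 1 - ((n : ℝ) + 3) * t ^ (n + 2)) * (τ - t) := by ring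
      _ ≤ _ := this
  -- the polynomial factors
  have hM : (1 : ℝ) ≤ (m : ℝ) + 2 := by linarith
  have hP2 : P + 2 ≤ (((n : ℝ) + 3) + 3) * ((m : ℝ) + 2) ^ (n + 2) := by
    have h1 : t0 ^ (n + 2) ≤ ((m : ℝ) + 2) ^ (n + 2) :=
      pow_le_pow_left₀ (by linarith) (by linarith) _
    have h2 : ((n : ℝ) + 3) * t0 ^ (n + 2) ≤ ((n : ℝ) + 3) * ((m : ℝ) + 2) ^ (n + 2) :=
      mul_le_mul_of_nonneg_left h1 (by positivity)
    have h3 : (1 : ℝ) ≤ ((m : ℝ) + 2) ^ (n + 2) := one_le_pow₀ hM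
    have h4 : (((n : ℝ) + 3) + 3) * ((m : ℝ) + 2) ^ (n + 2) =
        ((n : ℝ) + 3) * ((m : ℝ) + 2) ^ (n + 2) + 3 * ((m : ℝ) + 2) ^ (n + 2) := by ring
    linarith
  have hP0 : 0 ≤ P + 2 := by rw [hpR]; positivity
  have hrho : rho (n + 3) t ≤ 2 * ((n : ℝ) + 3) ^ 2 * ((m : ℝ) + 2) ^ (2 * (n + 2)) *
      Real.exp (t ^ (n + 3)) := by
    unfold rho
    refine mul_le_mul_of_nonneg_right ?_ (Real.exp_pos _).le
    have e1 : n + 3 - 1 = n + 2 := by omega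
    have e2 : n + 3 - 2 = n + 1 := by omega
    rw [e1, e2]
    push_cast
    have h1 : t ^ (n + 2) ≤ ((m : ℝ) + 2) ^ (n + 2) :=
      pow_le_pow_left₀ (by linarith) (by linarith) _
    have h2 : t ^ (n + 1) ≤ ((m : ℝ) + 2) ^ (2 * (n + 2)) :=
      (pow_le_pow_left₀ (by linarith) (by linarith) _).trans
        (pow_le_pow_right₀ hM (by omega))
    have h3 : (((n : ℝ) + 3) * t ^ (n + 2)) ^ 2 ≤
        ((n : ℝ) + 3) ^ 2 * ((m : ℝ) + 2) ^ (2 * (n + 2)) := by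
      rw [mul_pow, pow_mul', ]
      gcongr
    have h4 : ((n : ℝ) + 3) * ((n : ℝ) + 3 - 1) * t ^ (n + 1) ≤
        ((n : ℝ) + 3) ^ 2 * ((m : ℝ) + 2) ^ (2 * (n + 2)) := by
      have h5 : ((n : ℝ) + 3) * ((n : ℝ) + 3 - 1) ≤ ((n : ℝ) + 3) ^ 2 := by nlinarith
      refine mul_le_mul h5 h2 (by positivity) (by positivity)
    linarith
  have hrho0 : 0 ≤ rho (n + 3) t := by
    unfold rho
    have : (0 : ℝ) ≤ ((n + 3 : ℕ) : ℝ) - 1 := by push_cast; linarith [(Nat.cast_nonneg n : (0 : ℝ) ≤ n)]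
    have h1 : (0 : ℝ) ≤ t ^ (n + 3 - 2) := by positivity
    have h2 : (0 : ℝ) ≤ ((n + 3 : ℕ) : ℝ) * (((n + 3 : ℕ) : ℝ) - 1) * t ^ (n + 3 - 2) :=
      mul_nonneg (mul_nonneg (by positivity) this) h1
    have h3 := Real.exp_pos (t ^ (n + 3))
    positivity
  have hpowM : ((m : ℝ) + 2) ^ (n + 2) * ((m : ℝ) + 2) ^ (2 * (n + 2)) ≤
      ((m : ℝ) + 2) ^ (3 * (n + 3)) := by
    rw [← pow_add]
    exact pow_le_pow_right₀ hM (by omega)
  constructor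
  · calc (P + 2) * Real.exp ((P + 1) * (τ - t)) * rho (n + 3) t
        ≤ ((((n : ℝ) + 3) + 3) * ((m : ℝ) + 2) ^ (n + 2)) * Real.exp ((P + 1) * (τ - t)) *
          (2 * ((n : ℝ) + 3) ^ 2 * ((m : ℝ) + 2) ^ (2 * (n + 2)) * Real.exp (t ^ (n + 3))) := by
          gcongr
      _ = 2 * ((n : ℝ) + 3) ^ 2 * (((n : ℝ) + 3) + 3) *
          (((m : ℝ) + 2) ^ (n + 2) * ((m : ℝ) + 2) ^ (2 * (n + 2))) *
          Real.exp (t ^ (n + 3) + (P + 1) * (τ - t)) := by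
          rw [Real.exp_add]; ring
      _ ≤ 2 * ((n : ℝ) + 3) ^ 2 * (((n : ℝ) + 3) + 3) * ((m : ℝ) + 2) ^ (3 * (n + 3)) *
          Real.exp (τ ^ (n + 3) - (τ - m) ^ 2 / 4 + 5 / 2) := by
          gcongr
      _ = _ := by rw [Real.exp_add]; ring
  · have hmt : (m : ℝ) ^ (n + 3) ≤ t ^ (n + 3) := pow_le_pow_left₀ (by linarith) (by linarith) _
    have hn1 : (1 : ℝ) ≤ 2 * ((n : ℝ) + 3) ^ 2 := by nlinarith [(Nat.cast_nonneg n : (0 : ℝ) ≤ n)]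
    have hexp' : (P + 1) * (τ - t) ≤ τ ^ (n + 3) - (m : ℝ) ^ (n + 3) - (τ - m) ^ 2 / 4 + 5 / 2 := by
      linarith
    have hpow : ((m : ℝ) + 2) ^ (n + 2) ≤ ((m : ℝ) + 2) ^ (3 * (n + 3)) :=
      pow_le_pow_right₀ hM (by omega)
    have hA : P + 2 ≤ 2 * ((n : ℝ) + 3) ^ 2 * (((n : ℝ) + 3) + 3) *
        ((m : ℝ) + 2) ^ (3 * (n + 3)) := by
      refine hP2.trans (mul_le_mul ?_ hpow (by positivity) (by positivity))
      have h0 : (0 : ℝ) ≤ ((n : ℝ) + 3) + 3 := by positivity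
      exact le_mul_of_one_le_left h0 hn1
    have hE : Real.exp ((P + 1) * (τ - t)) ≤
        Real.exp (τ ^ (n + 3) - (m : ℝ) ^ (n + 3) - (τ - m) ^ 2 / 4) * Real.exp (5 / 2) := by
      rw [← Real.exp_add]
      exact Real.exp_le_exp.2 hexp'
    have hfin := mul_le_mul hA hE (Real.exp_pos _).le (hP0.trans hA)
    refine hfin.trans (le_of_eq ?_)
    ring

end Pool.Agent.W101.CI
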