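import Pool.Agent.W809.CI.Stm

/-! Project CI (helper809), part STG1: the stages. -/

set_option autoImplicit false

open Set Filter Topology

namespace Pool.Agent.W101.CI

open Pool.Agent.W809.CI

section
variable (hPT : S_PT)
include hPT

lemma beta_add (m m' : ℤ) (x : Pt) : beta m (beta m' x) = beta (m + m') x := hPT.2.2.1 m m' x

lemma sh_sh (a b : ℤ) (x : ℝ → Pt) : sh a (sh b x) = sh (a + b) x := by
  funext t
  simp only [sh]
  rw [beta_add hPT]
  have e1 : t + (a : ℝ) + (b : ℝ) = t + ((a + b : ℤ) : ℝ) := by push_cast; ring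
  rw [e1, neg_add]

lemma sh_zero (x : ℝ → Pt) : sh 0 x = x := by
  funext t
  simp only [sh]
  rw [neg_zero, hPT.2.2.2.1]
  simp

lemma sh_tw {p : ℕ} {x : ℝ → Pt} (hx : Tw p x) (a : ℤ) : Tw p (sh a x) := by
  intro t
  simp only [sh]
  have e1 : t + (p : ℝ) + (a : ℝ) = t + (a : ℝ) + p := by ring
  rw [e1, hx, beta_add hPT, beta_add hPT, add_comm]

lemma sh_p {p : ℕ} {x : ℝ → Pt} (hx : Tw p x) : sh (p : ℤ) x = x := by
  funext t
  simp only [sh]
  rw [Int.cast_natCast, hx, beta_add hPT, neg_add_cancel, hPT.2.2.2.1]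

lemma sh_pm {p : ℕ} {x : ℝ → Pt} (hx : Tw p x) (m : ℤ) : sh ((p : ℤ) * m) x = x := by
  induction m using Int.induction_on with
  | zero => rw [mul_zero, sh_zero hPT]
  | succ n ih => rw [mul_add, mul_one, ← sh_sh hPT, sh_p hPT hx, ih]
  | pred n ih =>
    have h1 : sh (-(p : ℤ)) x = x := by
      conv_lhs => rw [← sh_p hPT hx]
      rw [sh_sh hPT, neg_add_cancel, sh_zero hPT]
    rw [mul_sub, mul_one, sub_eq_add_neg, ← sh_sh hPT, h1, ih]

end

/-- the straight path along the binding -/
def xb (t : ℝ) : Pt := ⟨(0, fun _ => 0, t), le_rfl, 0, by funext k; simp⟩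

lemma xb_cont : Continuous xb := by
  have h : Continuous (fun t : ℝ => ((0 : ℝ), (fun _ : ℤ => (0 : ℝ)), t)) := by fun_prop
  exact Continuous.subtype_mk h _

lemma xb_tw (p : ℕ) : Tw p xb := by
  intro t
  apply Subtype.ext
  simp [xb, beta]

lemma stage_tw (hPT : S_PT) (hHOP : S_HOP) (p : ℕ) (W : ℝ) (hp : 0 < p) (hW : 0 < W)
    (hpW : 4 * W ≤ p) (lam : ℕ → ℝ) (a : ℕ → ℤ) (k : ℕ) : Tw p (stage p W lam a k) := by
  obtain ⟨h1, _⟩ := hHOP p W hp hW hpW
  cases k with
  | zero => exact h1 3 _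
  | succ k => exact sh_tw hPT (h1 _ _) _

theorem stg1 : S_PT → S_HOP → S_HCONT → S_STG1 := by
  intro hPT hHOP hHC p W hp hW hpW
  have htw := stage_tw hPT hHOP p W hp hW hpW
  obtain ⟨h1, h2, h3, h4⟩ := hHOP p W hp hW hpW
  refine ⟨htw, ?_, ?_, ?_⟩
  · intro Y _ lam a k hlam
    have hsh : ∀ (b : ℤ) (f : Y → ℝ → Pt), Continuous (fun q : Y × ℝ => f q.1 q.2) →
        Continuous (fun q : Y × ℝ => sh b (f q.1) q.2) := by
      intro b f hf
      have e : (fun q : Y × ℝ => sh b (f q.1) q.2) =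
          beta (-b) ∘ (fun q : Y × ℝ => f q.1 q.2) ∘ (fun q : Y × ℝ => (q.1, q.2 + (b : ℝ))) := rfl
      rw [e]
      exact (hPT.1 (-b)).comp (hf.comp (by fun_prop))
    induction k with
    | zero =>
      have h5 := hHC Y p W hp hW hpW (fun _ => 3) (fun _ => xb) continuous_const
        (xb_cont.comp continuous_snd) (fun _ => xb_tw p)
      have e : (fun q : Y × ℝ => stage p W (lam q.1) a 0 q.2) =
          fun q : Y × ℝ => Hop p W 3 xb q.2 := by
        funext q
        simp only [stage]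
        rw [h3 (fun _ => b0) xb]
      rw [e]
      exact h5
    | succ k ih =>
      exact hsh (a k) (fun y => Hop p W (lam y k) (sh (-(a k)) (stage p W (lam y) a k)))
        (hHC Y p W hp hW hpW (fun y => lam y k)
        (fun y => sh (-(a k)) (stage p W (lam y) a k)) (hlam k)
        (hsh (-(a k)) (fun y => stage p W (lam y) a k) ih)
        (fun y => sh_tw hPT (htw _ _ _) _))
  · intro lam a a' k hk
    induction k with
    | zero => rfl
    | succ k ih =>
      have ih' := ih fun i hi => hk i (Nat.lt_succ_of_lt hi)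
      have hx : Tw p (stage p W lam a' k) := htw lam a' k
      show Hg p W (lam k) (a k) (stage p W lam a k) = Hg p W (lam k) (a' k) (stage p W lam a' k)
      rw [ih']
      by_cases h0 : lam k = 0
      · have h5 : ∀ b : ℤ, Hg p W (lam k) b (stage p W lam a' k) = stage p W lam a' k := by
          intro b
          rw [Hg, h0, h2 _ (sh_tw hPT hx _), sh_sh hPT, add_neg_cancel, sh_zero hPT]
        rw [h5, h5]
      · obtain ⟨m, hm⟩ := hk k (Nat.lt_succ_self k) h0
        have e1 : a k = a' k + p * m := by omega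
        have e2 : -(a k) = -(a' k) + p * (-m) := by rw [e1]; ring
        have e3 : sh (-(a k)) (stage p W lam a' k) = sh (-(a' k)) (stage p W lam a' k) := by
          rw [e2, ← sh_sh hPT, sh_pm hPT hx]
        rw [Hg, Hg, e3, e1, ← sh_sh hPT, sh_pm hPT (h1 _ _)]
  · intro lam a k
    induction k with
    | zero =>
      rintro ⟨i, hi, _⟩
      omega
    | succ k ih =>
      rintro ⟨i, hi, hi3⟩
      show Hg p W (lam k) (a k + 1) (stage p W lam (fun i => a i + 1) k) =
        sh 1 (Hg p W (lam k) (a k) (stage p W lam a k))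
      by_cases h5 : lam k = 3
      · rw [Hg, Hg, h5, h3 _ (sh (-(a k)) (stage p W lam a k)), sh_sh hPT, add_comm]
      · have hik : i < k := by
          rcases Nat.lt_succ_iff_lt_or_eq.1 hi with h | h
          · exact h
          · rw [h] at hi3
            exact absurd hi3 h5
        rw [ih ⟨i, hik, hi3⟩, Hg, Hg, sh_sh hPT, sh_sh hPT]
        have e1 : -(a k + 1) + 1 = -(a k) := by ring
        rw [e1, add_comm (1 : ℤ)]

end Pool.Agent.W101.CI
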